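import Pool.Agent.Helper53.SL.St

set_option autoImplicit false

open Polynomial Filter Topology

noncomputable section

namespace Pool.Agent.Helper81.SL

open Pool.Agent.Helper53.SL

/-- The bound of the determinant by the Euclidean norms of the rows. -/
lemma abs_det_le_rows (n : ℕ) (B : Matrix (Fin n) (Fin n) ℝ) :
    |B.det| ≤ ∏ i : Fin n, √(∑ j : Fin n, B i j ^ 2) := by
  classical
  let b := EuclideanSpace.basisFun (Fin n) ℝ
  haveI : Fact (Module.finrank ℝ (EuclideanSpace ℝ (Fin n)) = n) := ⟨by simp⟩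
  let o : Orientation ℝ (EuclideanSpace ℝ (Fin n)) (Fin n) := b.toBasis.orientation
  have h := o.abs_volumeForm_apply_le (fun i => WithLp.toLp 2 (B i))
  rw [o.volumeForm_robust b rfl, Module.Basis.det_apply] at h
  have e : b.toBasis.toMatrix (fun i => WithLp.toLp 2 (B i)) = B.transpose := by
    ext i j
    simp [Module.Basis.toMatrix_apply, b]
  rw [e, Matrix.det_transpose] at h
  refine h.trans (le_of_eq ?_)
  refine Finset.prod_congr rfl fun i _ => ?_
  rw [EuclideanSpace.norm_eq]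
  simp

lemma prod_bound (r : ℕ → ℝ) (B0 δ : ℝ) (i0 : ℕ) (hδ : 0 < δ) (hB : δ ≤ B0) (h0 : ∀ i, 0 ≤ r i)
    (h1 : ∀ i, r i ≤ B0) (h2 : ∀ i, i0 ≤ i → r i ≤ δ) (m : ℕ) :
    ∏ i ∈ Finset.range m, r i ≤ (B0 / δ) ^ i0 * δ ^ m := by
  have ha : 1 ≤ B0 / δ := by rw [le_div_iff₀ hδ]; linarith
  have key : ∀ m : ℕ, ∏ i ∈ Finset.range m, r i ≤ (B0 / δ) ^ (min m i0) * δ ^ m := by
    intro m
    induction m with
    | zero => simp
    | succ m ih =>
      rw [Finset.prod_range_succ]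
      have hp : 0 ≤ ∏ i ∈ Finset.range m, r i := Finset.prod_nonneg fun i _ => h0 i
      rcases lt_or_ge m i0 with h | h
      · rw [min_eq_left h.le] at ih
        rw [min_eq_left (Nat.succ_le_of_lt h)]
        calc (∏ i ∈ Finset.range m, r i) * r m ≤ ((B0 / δ) ^ m * δ ^ m) * B0 :=
              mul_le_mul ih (h1 m) (h0 m) (by positivity)
          _ = ((B0 / δ) ^ m * δ ^ m) * (B0 / δ * δ) := by rw [div_mul_cancel₀ _ hδ.ne']
          _ = (B0 / δ) ^ (m + 1) * δ ^ (m + 1) := by ring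
      · rw [min_eq_right h] at ih
        rw [min_eq_right (by omega)]
        calc (∏ i ∈ Finset.range m, r i) * r m ≤ ((B0 / δ) ^ i0 * δ ^ m) * δ :=
              mul_le_mul ih (h2 m h) (h0 m) (by positivity)
          _ = (B0 / δ) ^ i0 * δ ^ (m + 1) := by ring
  refine (key m).trans ?_
  refine mul_le_mul_of_nonneg_right ?_ (by positivity)
  exact pow_le_pow_right₀ ha (min_le_right _ _)

lemma det_cast (x : ℕ → ℤ) (n : ℕ) :
    ((Matrix.of fun i j : Fin n => (x (i + j) : ℝ)).det : ℝ) =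
      (((Matrix.of fun i j : Fin n => x (i + j)).det : ℤ) : ℝ) := by
  rw [Int.cast_det]
  rfl

lemma det_castQ (x : ℕ → ℤ) (n : ℕ) :
    ((Matrix.of fun i j : Fin n => (x (i + j) : ℚ)).det : ℚ) =
      (((Matrix.of fun i j : Fin n => x (i + j)).det : ℤ) : ℚ) := by
  rw [Int.cast_det]
  rfl

/-- MODULE HAN. -/
theorem hHan : StHan := by
  intro c lam K x hc hK
  have hc0 : 0 < c := by linarith
  set ε : ℕ → ℝ := fun k => (x k : ℝ) - lam * c ^ k with hε
  have hK0 : 0 ≤ K := by simpa using hK 0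
  -- the differences
  set η : ℕ → ℝ := fun k => (x (k + 1) : ℝ) - c * x k with hη
  have hηε : ∀ k, η k = ε (k + 1) - c * ε k := by
    intro k
    simp only [hη, hε]
    ring
  have hsum : Summable fun k => η k ^ 2 := by
    refine summable_of_sum_range_le (c := 2 * K + 2 * c ^ 2 * K) (fun k => sq_nonneg _) fun n => ?_
    have h1 : ∑ k ∈ Finset.range n, ε (k + 1) ^ 2 ≤ K := by
      refine le_trans ?_ (hK (n + 1))
      rw [Finset.sum_range_succ']
      have : 0 ≤ ((x 0 : ℝ) - lam * c ^ 0) ^ 2 := sq_nonneg _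
      linarith
    have h2 : ∑ k ∈ Finset.range n, ε k ^ 2 ≤ K := hK n
    calc ∑ k ∈ Finset.range n, η k ^ 2 ≤ ∑ k ∈ Finset.range n, (2 * ε (k + 1) ^ 2 + 2 * c ^ 2 * ε k ^ 2) := by
          refine Finset.sum_le_sum fun k _ => ?_
          rw [hηε]
          nlinarith [sq_nonneg (ε (k + 1) + c * ε k)]
      _ = 2 * ∑ k ∈ Finset.range n, ε (k + 1) ^ 2 + 2 * c ^ 2 * ∑ k ∈ Finset.range n, ε k ^ 2 := by
          rw [Finset.sum_add_distrib, Finset.mul_sum, Finset.mul_sum]
      _ ≤ 2 * K + 2 * c ^ 2 * K := by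
          have : 0 ≤ c ^ 2 := sq_nonneg c
          nlinarith
  -- the tails
  set T : ℕ → ℝ := fun i => ∑' k, η (k + i) ^ 2 with hT
  have hTt : Tendsto T atTop (𝓝 0) := tendsto_sum_nat_add fun k => η k ^ 2
  have hTn : ∀ i, 0 ≤ T i := fun i => tsum_nonneg fun k => sq_nonneg _
  have hTs : ∀ i, Summable fun k => η (k + i) ^ 2 := fun i => (summable_nat_add_iff i).2 hsum
  have hTle : ∀ i n, ∑ j ∈ Finset.range n, η (i + j) ^ 2 ≤ T i := by
    intro i n
    have := (hTs i).sum_le_tsum (Finset.range n) fun k _ => sq_nonneg _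
    simpa only [hT, add_comm i] using this
  have hT0 : ∀ i, T i ≤ T 0 := by
    intro i
    have h := hsum.sum_add_tsum_nat_add i
    have h0 : T 0 = ∑' k, η k ^ 2 := by simp [hT]
    have h1 : 0 ≤ ∑ k ∈ Finset.range i, η k ^ 2 := Finset.sum_nonneg fun k _ => sq_nonneg _
    rw [h0, ← h]
    simp only [hT]
    linarith
  set δ : ℝ := 1 / (2 * c) with hδd
  have hδ : 0 < δ := by positivity
  have hδ1 : δ ≤ 1 := by
    rw [hδd, div_le_one (by positivity)]
    linarith
  obtain ⟨i0, hi0⟩ : ∃ i0, ∀ i, i0 ≤ i → T i ≤ δ ^ 2 := by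
    have := hTt.eventually (gt_mem_nhds (show (0 : ℝ) < δ ^ 2 by positivity))
    obtain ⟨i0, h⟩ := eventually_atTop.1 this
    exact ⟨i0, fun i hi => (h i hi).le⟩
  set B0 : ℝ := max 1 (√(T 0)) with hB0
  have hprod : ∀ m : ℕ, ∏ i ∈ Finset.range m, √(T i) ≤ (B0 / δ) ^ i0 * δ ^ m := by
    intro m
    refine prod_bound (fun i => √(T i)) B0 δ i0 hδ (hδ1.trans (le_max_left _ _)) (fun i => Real.sqrt_nonneg _)
      (fun i => ?_) (fun i hi => ?_) m
    · exact (Real.sqrt_le_sqrt (hT0 i)).trans (le_max_right _ _)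
    · refine (Real.sqrt_le_sqrt (hi0 i hi)).trans (le_of_eq ?_)
      exact Real.sqrt_sq hδ.le
  set C1 : ℝ := 2 * lam ^ 2 + 2 * K with hC1
  have hC1n : 0 ≤ C1 := by positivity
  set C2 : ℝ := (B0 / δ) ^ i0 with hC2
  have hC2n : 0 ≤ C2 := by positivity
  -- the bound of the determinants
  have hdet : ∀ m : ℕ, |((Matrix.of fun i j : Fin (m + 1) => (x (i + j) : ℝ)).det : ℝ)| ≤
      (C1 + 1) * C2 * (((m : ℝ) + 1) * (1 / 2) ^ m) := by
    intro m
    set A : Matrix (Fin (m + 1)) (Fin (m + 1)) ℝ := Matrix.of fun i j => (x (i + j) : ℝ) with hA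
    set B : Matrix (Fin (m + 1)) (Fin (m + 1)) ℝ :=
      Matrix.of fun i j => Fin.cases (motive := fun _ => ℝ) (x j : ℝ) (fun i' : Fin m => η ((i' : ℕ) + j)) i with hB
    have hAB : A.det = B.det := by
      refine Matrix.det_eq_of_forall_row_eq_smul_add_pred (fun _ => c) (fun j => ?_) (fun i j => ?_)
      · simp [hA, hB]
      · simp only [hA, hB, hη, Matrix.of_apply, Fin.cases_succ, Fin.val_succ, Fin.val_castSucc]
        have : (i : ℕ) + 1 + (j : ℕ) = (i : ℕ) + (j : ℕ) + 1 := by ring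
        rw [this]
        ring
    rw [hAB]
    refine (abs_det_le_rows _ B).trans ?_
    rw [Fin.prod_univ_succ]
    have hrow0 : √(∑ j : Fin (m + 1), B 0 j ^ 2) ≤ (C1 + 1) * ((m : ℝ) + 1) * c ^ m := by
      have h1 : ∑ j : Fin (m + 1), B 0 j ^ 2 ≤ C1 * ((m : ℝ) + 1) * (c ^ m) ^ 2 := by
        have e1 : ∑ j : Fin (m + 1), B 0 j ^ 2 = ∑ j ∈ Finset.range (m + 1), (x j : ℝ) ^ 2 := by
          rw [Finset.sum_range]
          simp [hB]
        rw [e1]
        have hc2 : 1 ≤ (c ^ m) ^ 2 := one_le_pow₀ (one_le_pow₀ hc.le)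
        calc ∑ j ∈ Finset.range (m + 1), (x j : ℝ) ^ 2
            ≤ ∑ j ∈ Finset.range (m + 1), (2 * lam ^ 2 * (c ^ m) ^ 2 + 2 * ε j ^ 2) := by
              refine Finset.sum_le_sum fun j hj => ?_
              have hj' : j ≤ m := Nat.lt_succ_iff.1 (Finset.mem_range.1 hj)
              have hcj : c ^ j ≤ c ^ m := pow_le_pow_right₀ hc.le hj'
              have hcj2 : (c ^ j) ^ 2 ≤ (c ^ m) ^ 2 := by
                have : 0 ≤ c ^ j := by positivity
                nlinarith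
              have hx : (x j : ℝ) = lam * c ^ j + ε j := by simp [hε]
              rw [hx]
              have h3 : (lam * c ^ j + ε j) ^ 2 ≤ 2 * (lam * c ^ j) ^ 2 + 2 * ε j ^ 2 := by
                nlinarith [sq_nonneg (lam * c ^ j - ε j)]
              have h4 : (lam * c ^ j) ^ 2 ≤ lam ^ 2 * (c ^ m) ^ 2 := by
                rw [mul_pow]
                exact mul_le_mul_of_nonneg_left hcj2 (sq_nonneg _)
              linarith
          _ = ((m : ℝ) + 1) * (2 * lam ^ 2 * (c ^ m) ^ 2) + 2 * ∑ j ∈ Finset.range (m + 1), ε j ^ 2 := by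
              rw [Finset.sum_add_distrib, Finset.sum_const, Finset.card_range, ← Finset.mul_sum, nsmul_eq_mul]
              push_cast
              ring
          _ ≤ ((m : ℝ) + 1) * (2 * lam ^ 2 * (c ^ m) ^ 2) + 2 * K := by
              have := hK (m + 1)
              linarith
          _ ≤ C1 * ((m : ℝ) + 1) * (c ^ m) ^ 2 := by
              have hm : (0 : ℝ) ≤ m := Nat.cast_nonneg m
              have : 2 * K ≤ 2 * K * (((m : ℝ) + 1) * (c ^ m) ^ 2) := by
                have h5 : 1 ≤ ((m : ℝ) + 1) * (c ^ m) ^ 2 := by nlinarith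
                nlinarith
              rw [hC1]
              nlinarith
      have h2 : √(∑ j : Fin (m + 1), B 0 j ^ 2) ≤ √(C1 * ((m : ℝ) + 1) * (c ^ m) ^ 2) := Real.sqrt_le_sqrt h1
      have h3 : √(C1 * ((m : ℝ) + 1) * (c ^ m) ^ 2) = √(C1 * ((m : ℝ) + 1)) * c ^ m := by
        rw [Real.sqrt_mul' _ (sq_nonneg _), Real.sqrt_sq (by positivity)]
      have h4 : √(C1 * ((m : ℝ) + 1)) ≤ (C1 + 1) * ((m : ℝ) + 1) := by
        rw [Real.sqrt_le_left (by positivity)]
        have hm : (0 : ℝ) ≤ m := Nat.cast_nonneg m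
        nlinarith [mul_nonneg hC1n hm, mul_nonneg hC1n hC1n, mul_nonneg (mul_nonneg hC1n hC1n) hm,
          mul_nonneg hm hm, mul_nonneg hC1n (mul_nonneg hm hm), mul_nonneg (mul_nonneg hC1n hC1n) (mul_nonneg hm hm)]
      calc √(∑ j : Fin (m + 1), B 0 j ^ 2) ≤ √(C1 * ((m : ℝ) + 1)) * c ^ m := by rw [← h3]; exact h2
        _ ≤ (C1 + 1) * ((m : ℝ) + 1) * c ^ m := mul_le_mul_of_nonneg_right h4 (by positivity)
    have hrows : ∏ i : Fin m, √(∑ j : Fin (m + 1), B i.succ j ^ 2) ≤ C2 * δ ^ m := by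
      refine le_trans ?_ (hprod m)
      rw [Finset.prod_range]
      refine Finset.prod_le_prod (fun i _ => Real.sqrt_nonneg _) fun i _ => ?_
      refine Real.sqrt_le_sqrt ?_
      have e1 : ∑ j : Fin (m + 1), B i.succ j ^ 2 = ∑ j ∈ Finset.range (m + 1), η ((i : ℕ) + j) ^ 2 := by
        rw [Finset.sum_range]
        simp [hB]
      rw [e1]
      exact hTle i (m + 1)
    calc √(∑ j : Fin (m + 1), B 0 j ^ 2) * ∏ i : Fin m, √(∑ j : Fin (m + 1), B i.succ j ^ 2)
        ≤ ((C1 + 1) * ((m : ℝ) + 1) * c ^ m) * (C2 * δ ^ m) :=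
          mul_le_mul hrow0 hrows (Finset.prod_nonneg fun i _ => Real.sqrt_nonneg _) (by positivity)
      _ = (C1 + 1) * C2 * (((m : ℝ) + 1) * (1 / 2) ^ m) := by
          have : c ^ m * δ ^ m = (1 / 2) ^ m := by
            rw [← mul_pow]
            congr 1
            rw [hδd]
            field_simp
          rw [← this]
          ring
  -- the limit
  have hlim : Tendsto (fun m : ℕ => (C1 + 1) * C2 * (((m : ℝ) + 1) * (1 / 2) ^ m)) atTop (𝓝 0) := by
    have h1 := tendsto_self_mul_const_pow_of_lt_one (r := (1 / 2 : ℝ)) (by norm_num) (by norm_num)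
    have h2 := tendsto_pow_atTop_nhds_zero_of_lt_one (r := (1 / 2 : ℝ)) (by norm_num) (by norm_num)
    have h3 := (h1.add h2).const_mul ((C1 + 1) * C2)
    simp only [add_zero, mul_zero] at h3
    refine h3.congr fun m => ?_
    ring
  obtain ⟨m0, hm0⟩ := eventually_atTop.1 (hlim.eventually (gt_mem_nhds (zero_lt_one)))
  refine ⟨m0 + 1, fun n hn => ?_⟩
  obtain ⟨m, rfl⟩ : ∃ m, n = m + 1 := ⟨n - 1, by omega⟩
  have h1 := (hdet m).trans_lt (hm0 m (by omega))
  rw [det_cast] at h1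
  rw [det_castQ]
  have h2 : |(Matrix.of fun i j : Fin (m + 1) => x (i + j)).det| < 1 := by
    have : ((|(Matrix.of fun i j : Fin (m + 1) => x (i + j)).det| : ℤ) : ℝ) < 1 := by
      rw [Int.cast_abs]
      exact h1
    exact_mod_cast this
  rw [Int.abs_lt_one_iff.1 h2]
  simp

end Pool.Agent.Helper81.SL

end
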